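import Pool.Agent.J4H26.EQ.Imp2

set_option autoImplicit false

/-!
# Upper bounds for the moments on the critical line and asymptotic formulas near the line

Let `k ≥ 1` be an integer and let `X(T) ≥ 1` be a scale with `X(2T) ≤ D X(T)` and `X(T) = o(log T)` (for example
`X = 1`, `X = log log T`, `X = (log T)^{1/2}`).  The following are equivalent:

1. on the critical line, `M_k(T) ≤ exp(O(X(T))) (log T)^{k²}`;
2. this upper bound at one distance `C X(T) / log T` from the line;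
3. the asymptotic formula `∼ Σ d_k(n)² n^{-1-2δ}`, uniformly for `C X(T) / log T ≤ δ ≤ 1/16`;
4. the asymptotic formula `∼ a_k (2δ)^{-k²}` whenever `δ → 0`, `δ log T / X(T) → ∞`;
5. for every `ε ∈ (0,1)` the sum of length `T^ε` represents `ζ^k` in mean square, with relative error `o(1)`,
   whenever `δ → 0`, `δ log T / X(T) → ∞`;
6. the same for one `ε ∈ (0,1)`.
-/

open Filter Topology MeasureTheory

namespace Pool.Agent.Results.MP_112ba8_nt.NearLineCriterion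

/-- The mean of `|ζ(1/2 + δ + it)|^{2k}` over `0 ≤ t ≤ T`; for `δ = 0` this is `M_k(T)`. -/
noncomputable def M (k : ℕ) (δ T : ℝ) : ℝ :=
  1 / T * ∫ t in (0:ℝ)..T, ‖riemannZeta (1 / 2 + δ + t * Complex.I)‖ ^ (2 * k)

/-- The divisor function `d_k(n)`, the coefficient of `n^{-s}` in `ζ(s)^k`. -/
def d (k n : ℕ) : ℕ := (ArithmeticFunction.zeta ^ k : ArithmeticFunction ℕ) n

/-- The mean over `0 ≤ t ≤ T` of `|ζ(s)^k - Σ_{n ≤ T^ε} d_k(n) n^{-s}|^2`, `s = 1/2 + δ + it`. -/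
noncomputable def E (k : ℕ) (ε δ T : ℝ) : ℝ :=
  1 / T * ∫ t in (0:ℝ)..T, ‖riemannZeta (1 / 2 + δ + t * Complex.I) ^ k -
    ∑ n ∈ Finset.Icc 1 ⌊T ^ ε⌋₊, (d k n : ℂ) * (n : ℂ) ^ (-(1 / 2 + δ + t * Complex.I))‖ ^ 2

/-- The diagonal `Σ d_k(n)² n^{-1-2δ}`. -/
noncomputable def S (k : ℕ) (δ : ℝ) : ℝ := ∑' n : ℕ, (d k n : ℝ) ^ 2 * (n : ℝ) ^ (-1 - 2 * δ)

/-- The arithmetic factor `a_k = ∏_p (1 - 1/p)^{k²} Σ_m C(m+k-1, m)² p^{-m}`. -/
noncomputable def a (k : ℕ) : ℝ :=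
  ∏' p : Nat.Primes, ((1 - 1 / (p : ℝ)) ^ (k ^ 2) *
    ∑' m : ℕ, ((m + k - 1).choose m : ℝ) ^ 2 * (1 / (p : ℝ)) ^ m)

open Pool.Agent.J4H26.EQ Pool.Agent.H306R2 Pool.Agent.W184

lemma lc_nat (k : ℕ) (hk : 1 ≤ k) (m : ℕ) : lc (k : ℝ) m = ((m + k - 1).choose m : ℝ) := by
  have lcs : ∀ m : ℕ, lc (k : ℝ) (m + 1) = lc (k : ℝ) m * (((k : ℝ) + m) / ((m : ℝ) + 1)) := by
    intro m
    unfold lc
    rw [Finset.prod_range_succ]
  induction m with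
  | zero => unfold lc; simp
  | succ m ih =>
    rw [lcs, ih]
    have h1 : m + 1 + k - 1 = (m + k - 1) + 1 := by omega
    have h2 : ((m + k - 1) + 1) * (m + k - 1).choose m = ((m + k - 1) + 1).choose (m + 1) * (m + 1) :=
      Nat.add_one_mul_choose_eq (m + k - 1) m
    have h3 : (((m + k - 1 + 1 : ℕ)) : ℝ) = m + k := by
      rw [show m + k - 1 + 1 = m + k by omega]; push_cast; ring
    have h4 : ((m : ℝ) + k) * ((m + k - 1).choose m : ℝ) =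
        (((m + k - 1) + 1).choose (m + 1) : ℝ) * ((m : ℝ) + 1) := by
      rw [← h3]
      exact_mod_cast h2
    rw [h1]
    have h5 : (m : ℝ) + 1 ≠ 0 := by positivity
    rw [← mul_div_assoc, div_eq_iff h5]
    rw [← h4]
    ring

lemma a_eq (k : ℕ) (hk : 1 ≤ k) : a k = aF (k : ℝ) := by
  unfold aF a
  refine tprod_congr fun p => ?_
  congr 1
  · have h := Real.rpow_natCast (1 - 1 / (p : ℝ)) (k ^ 2)
    rw [Nat.cast_pow] at h
    exact h.symm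
  · refine tsum_congr fun m => ?_
    rw [lc_nat k hk]

lemma d_eq (k n : ℕ) : (d k n : ℝ) = dd k n := (dd_eq k n).symm

lemma M_eq (k : ℕ) (δ T : ℝ) : M k δ T = MZ k δ T := by
  unfold M MZ zn
  push_cast
  rfl

lemma S_eq (k : ℕ) (δ : ℝ) : S k δ = SS k (2 * δ) := by
  unfold S SS
  simp only [d_eq]

lemma E_eq (k : ℕ) (ε δ T : ℝ) : E k ε δ T = EZ k ε δ T := by
  unfold E EZ qd DS
  have h : ∀ n : ℕ, (d k n : ℂ) = ((dd k n : ℝ) : ℂ) := fun n => by rw [← d_eq]; push_cast; rfl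
  simp only [h]
  push_cast
  rfl

theorem result (k : ℕ) (hk : 1 ≤ k) (X : ℝ → ℝ) (hX1 : ∀ T, 1 ≤ X T)
    (hX2 : ∃ D : ℝ, ∀ᶠ T in atTop, X (2 * T) ≤ D * X T)
    (hX3 : Tendsto (fun T => X T / Real.log T) atTop (𝓝 0)) :
    List.TFAE [
      ∃ C : ℝ, ∀ᶠ T in atTop, M k 0 T ≤ Real.exp (C * X T) * Real.log T ^ (k ^ 2),
      ∃ C : ℝ, 0 < C ∧ ∀ᶠ T in atTop, M k (C * X T / Real.log T) T ≤ Real.exp (C * X T) * Real.log T ^ (k ^ 2),
      ∀ e : ℝ, 0 < e → ∃ C : ℝ, 0 < C ∧ ∀ᶠ T in atTop, ∀ δ : ℝ, C * X T / Real.log T ≤ δ → δ ≤ 1 / 16 →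
        |M k δ T - S k δ| ≤ e * S k δ,
      ∀ δ : ℝ → ℝ, Tendsto δ atTop (𝓝 0) → Tendsto (fun T => δ T * Real.log T / X T) atTop atTop →
        Tendsto (fun T => (2 * δ T) ^ (k ^ 2) * M k (δ T) T) atTop (𝓝 (a k)),
      ∀ ε : ℝ, 0 < ε → ε < 1 →
        ∀ δ : ℝ → ℝ, Tendsto δ atTop (𝓝 0) → Tendsto (fun T => δ T * Real.log T / X T) atTop atTop →
        Tendsto (fun T => (2 * δ T) ^ (k ^ 2) * E k ε (δ T) T) atTop (𝓝 0),
      ∃ ε : ℝ, 0 < ε ∧ ε < 1 ∧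
        ∀ δ : ℝ → ℝ, Tendsto δ atTop (𝓝 0) → Tendsto (fun T => δ T * Real.log T / X T) atTop atTop →
        Tendsto (fun T => (2 * δ T) ^ (k ^ 2) * E k ε (δ T) T) atTop (𝓝 0)] := by
  simp only [M_eq, S_eq, E_eq, a_eq k hk]
  tfae_have 1 → 5 := fun H ε h0 h1 δ z i => L2 hk hX1 hX2 H h0 h1 ⟨z, i⟩
  tfae_have 5 → 6 := fun H => ⟨1 / 2, by norm_num, by norm_num, H (1 / 2) (by norm_num) (by norm_num)⟩
  tfae_have 6 → 4 := by
    rintro ⟨ε, h0, h1, H⟩ δ z i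
    exact L4 hk hX1 h0 h1 ⟨z, i⟩ (H δ z i)
  tfae_have 4 → 2 := fun H => L5 hk hX1 hX3 (fun δ p => H δ p.z p.inf)
  tfae_have 2 → 1 := fun H => L6 hk hX1 hX2 hX3 H
  tfae_have 1 → 3 := fun H => L7 hk hX1 hX2 H
  tfae_have 3 → 4 := fun H δ z i => L8 hk hX1 H ⟨z, i⟩
  tfae_finish

end Pool.Agent.Results.MP_112ba8_nt.NearLineCriterion
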