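import Pool.Agent.J4H26.TI.Fin3

set_option autoImplicit false

/-!
# The moments of every order near the critical line in almost all short intervals

Let `k ≥ 1` be an integer, `S(δ) = Σ d_k(n)² n^{-1-2δ} ∼ a_k (2δ)^{-k²}`.  For every `e > 0` and all large `T`: for all
`0 < δ ≤ 1/32` and all `H ≥ 1` the mean of `|ζ(1/2 + δ + iu)|^{2k}` over `t ≤ u ≤ t + H` is within `e S(δ)` of `S(δ)`
for all `t ∈ [0, T]` outside a set of measure at most `T (log T)^{k⁴+3} (1/H + H T^{-δ/(4k(2k+3))})`.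

So at all distances `δ ≥ C log log T / log T` from the line, the moment of order `2k` over almost all intervals of
length a large power of `log T` has the diagonal asymptotics.

The proof approximates `ζ` itself (not `ζ^k`) by a sum of length `T^η` in mean square near the line, passes to the
supremum over short intervals by the area mean value inequality, and computes the variance over `t` of the short
averages of `|Σ_{n ≤ T^η} n^{-s}|^{2k}`, where only quadruples with `m n' = m' n` matter.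
-/

open Filter Topology MeasureTheory

namespace Pool.Agent.Results.MP_112ba8_nt.TypicalShortIntervals

/-- The mean of `|ζ(1/2 + δ + iu)|^{2k}` over `t ≤ u ≤ t + H`. -/
noncomputable def W (k : ℕ) (δ H t : ℝ) : ℝ :=
  1 / H * ∫ u in t..(t + H), ‖riemannZeta (1 / 2 + δ + u * Complex.I)‖ ^ (2 * k)

/-- The divisor function `d_k(n)`, the coefficient of `n^{-s}` in `ζ(s)^k`. -/
def d (k n : ℕ) : ℕ := (ArithmeticFunction.zeta ^ k : ArithmeticFunction ℕ) n

/-- The diagonal `Σ d_k(n)² n^{-1-2δ}`. -/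
noncomputable def S (k : ℕ) (δ : ℝ) : ℝ := ∑' n : ℕ, (d k n : ℝ) ^ 2 * (n : ℝ) ^ (-1 - 2 * δ)

/-- The arithmetic factor `a_k = ∏_p (1 - 1/p)^{k²} Σ_m C(m+k-1, m)² p^{-m}`. -/
noncomputable def a (k : ℕ) : ℝ :=
  ∏' p : Nat.Primes, ((1 - 1 / (p : ℝ)) ^ (k ^ 2) *
    ∑' m : ℕ, ((m + k - 1).choose m : ℝ) ^ 2 * (1 / (p : ℝ)) ^ m)

open Pool.Agent.J4H26.EQ Pool.Agent.J4H26.TI Pool.Agent.H306R2 Pool.Agent.W184

lemma lc_nat (k : ℕ) (hk : 1 ≤ k) (m : ℕ) : lc (k : ℝ) m = ((m + k - 1).choose m : ℝ) := by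
  have lcs : ∀ m : ℕ, lc (k : ℝ) (m + 1) = lc (k : ℝ) m * (((k : ℝ) + m) / ((m : ℝ) + 1)) := by
    intro m
    unfold lc
    rw [Finset.prod_range_succ]
  induction m with
  | zero => unfold lc; simp
  | succ m ih =>
    rw [lcs, ih]
    have h1 : m + 1 + k - 1 = (m + k - 1) + 1 := by omega
    have h2 : ((m + k - 1) + 1) * (m + k - 1).choose m = ((m + k - 1) + 1).choose (m + 1) * (m + 1) :=
      Nat.add_one_mul_choose_eq (m + k - 1) m
    have h3 : (((m + k - 1 + 1 : ℕ)) : ℝ) = m + k := by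
      rw [show m + k - 1 + 1 = m + k by omega]; push_cast; ring
    have h4 : ((m : ℝ) + k) * ((m + k - 1).choose m : ℝ) =
        (((m + k - 1) + 1).choose (m + 1) : ℝ) * ((m : ℝ) + 1) := by
      rw [← h3]
      exact_mod_cast h2
    rw [h1]
    have h5 : (m : ℝ) + 1 ≠ 0 := by positivity
    rw [← mul_div_assoc, div_eq_iff h5]
    rw [← h4]
    ring

lemma a_eq (k : ℕ) (hk : 1 ≤ k) : a k = aF (k : ℝ) := by
  unfold aF a
  refine tprod_congr fun p => ?_
  congr 1
  · have h := Real.rpow_natCast (1 - 1 / (p : ℝ)) (k ^ 2)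
    rw [Nat.cast_pow] at h
    exact h.symm
  · refine tsum_congr fun m => ?_
    rw [lc_nat k hk]

lemma d_eq (k n : ℕ) : (d k n : ℝ) = dd k n := (dd_eq k n).symm

lemma S_eq (k : ℕ) (δ : ℝ) : S k δ = SS k (2 * δ) := by
  unfold S SS
  simp only [d_eq]

lemma W_eq (k : ℕ) (δ H t : ℝ) : W k δ H t = WZ k δ H t := by
  unfold W WZ zn
  push_cast
  rfl

lemma est {k : ℕ} (hk : 1 ≤ k) {e : ℝ} (he : 0 < e) : ∀ᶠ T : ℝ in atTop, ∀ δ H : ℝ, 0 < δ → δ ≤ 1 / 32 → 1 ≤ H →
    volume.real {t ∈ Set.Icc 0 T | e * S k δ < |W k δ H t - S k δ|} ≤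
      T * Real.log T ^ (k ^ 4 + 3) * (1 / H + H * T ^ (-(δ / (4 * k * (2 * k + 3))))) := by
  simp only [S_eq, W_eq]
  exact main hk he

lemma lim {k : ℕ} (hk : 1 ≤ k) : Tendsto (fun δ : ℝ => (2 * δ) ^ (k ^ 2) * S k δ) (𝓝[>] 0) (𝓝 (a k)) := by
  simp only [S_eq, a_eq k hk]
  refine (SS_tendsto hk).comp ?_
  rw [tendsto_nhdsWithin_iff]
  constructor
  · have h : Tendsto (fun δ : ℝ => 2 * δ) (𝓝 0) (𝓝 (2 * 0)) := tendsto_id.const_mul 2
    rw [mul_zero] at h
    exact h.mono_left nhdsWithin_le_nhds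
  · filter_upwards [self_mem_nhdsWithin] with δ hδ
    have hδ' : 0 < δ := hδ
    show 0 < 2 * δ
    positivity

theorem result (k : ℕ) (hk : 1 ≤ k) :
    (∀ e : ℝ, 0 < e → ∀ᶠ T : ℝ in atTop, ∀ δ H : ℝ, 0 < δ → δ ≤ 1 / 32 → 1 ≤ H →
      volume.real {t ∈ Set.Icc 0 T | e * S k δ < |W k δ H t - S k δ|} ≤
        T * Real.log T ^ (k ^ 4 + 3) * (1 / H + H * T ^ (-(δ / (4 * k * (2 * k + 3)))))) ∧
    Tendsto (fun δ : ℝ => (2 * δ) ^ (k ^ 2) * S k δ) (𝓝[>] 0) (𝓝 (a k)) ∧
    (∀ (A : ℕ) (δ H : ℝ → ℝ), (∀ᶠ T in atTop, 0 < δ T) → Tendsto δ atTop (𝓝 0) →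
      (∀ᶠ T in atTop, Real.log T ^ (k ^ 4 + 4 + A) ≤ H T ∧
        H T * Real.log T ^ (k ^ 4 + 4 + A) ≤ T ^ (δ T / (4 * k * (2 * k + 3)))) →
      ∀ e : ℝ, 0 < e → Tendsto (fun T => Real.log T ^ A / T *
        volume.real {t ∈ Set.Icc 0 T | e < |(2 * δ T) ^ (k ^ 2) * W k (δ T) (H T) t - a k|}) atTop (𝓝 0)) := by
  refine ⟨fun e he => est hk he, lim hk, fun A δ H hδ0 hδ hH e he => ?_⟩
  have ha : 0 < a k := by
    rw [a_eq k hk]
    exact aF_pos (by exact_mod_cast hk)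
  -- the relative error
  set r : ℝ := e / (2 * (a k + e + 1)) with hr
  have hr0 : 0 < r := by positivity
  have hδS : Tendsto (fun T => (2 * δ T) ^ (k ^ 2) * S k (δ T)) atTop (𝓝 (a k)) := by
    refine (lim hk).comp ?_
    rw [tendsto_nhdsWithin_iff]
    exact ⟨hδ, hδ0⟩
  have hb : Tendsto (fun T : ℝ => 2 * (1 / Real.log T)) atTop (𝓝 0) := by
    have h := (tendsto_inv_atTop_zero.comp Real.tendsto_log_atTop).const_mul 2
    rw [mul_zero] at h
    refine h.congr fun T => ?_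
    simp only [Function.comp, one_div]
  refine squeeze_zero' ?_ ?_ hb
  · filter_upwards [eventually_gt_atTop (1:ℝ)] with T hT
    have h1 : 0 < Real.log T := Real.log_pos hT
    have h2 : 0 < T := by linarith
    have h3 : 0 ≤ volume.real {t ∈ Set.Icc 0 T | e < |(2 * δ T) ^ (k ^ 2) * W k (δ T) (H T) t - a k|} :=
      measureReal_nonneg
    positivity
  · filter_upwards [est hk hr0, hδ0, hδ.eventually_le_const (show (0:ℝ) < 1 / 32 by norm_num), hH,
      hδS.eventually (Metric.ball_mem_nhds _ (show 0 < min (e / 2) 1 by positivity)),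
      eventually_gt_atTop (1:ℝ), Real.tendsto_log_atTop.eventually_ge_atTop 1] with T h1 h2 h3 h4 h5 hT hL
    obtain ⟨h4a, h4b⟩ := h4
    have hT0 : 0 < T := by linarith
    set L := Real.log T with hLd
    have hL0 : 0 < L := by linarith
    have hH1 : 1 ≤ H T := le_trans (one_le_pow₀ hL) h4a
    have hH0 : 0 < H T := by linarith
    have h6 := h1 (δ T) (H T) h2 h3 hH1
    rw [Real.dist_eq] at h5
    have hp : 0 < (2 * δ T) ^ (k ^ 2) := by positivity
    have hS0 : 0 ≤ S k (δ T) := by rw [S_eq]; exact SS_nonneg _ _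
    have hsub : {t ∈ Set.Icc 0 T | e < |(2 * δ T) ^ (k ^ 2) * W k (δ T) (H T) t - a k|} ⊆
        {t ∈ Set.Icc 0 T | r * S k (δ T) < |W k (δ T) (H T) t - S k (δ T)|} := by
      rintro t ⟨ht, hlt⟩
      refine ⟨ht, ?_⟩
      by_contra hcon
      push Not at hcon
      have h7 : |(2 * δ T) ^ (k ^ 2) * S k (δ T) - a k| ≤ e / 2 := (h5.le).trans (min_le_left _ _)
      have h8 : (2 * δ T) ^ (k ^ 2) * S k (δ T) ≤ a k + e + 1 := by
        have := (abs_le.mp h7).2
        linarith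
      have h9 : |(2 * δ T) ^ (k ^ 2) * W k (δ T) (H T) t - (2 * δ T) ^ (k ^ 2) * S k (δ T)| ≤ e / 2 := by
        rw [← mul_sub, abs_mul, abs_of_pos hp]
        calc (2 * δ T) ^ (k ^ 2) * |W k (δ T) (H T) t - S k (δ T)| ≤ (2 * δ T) ^ (k ^ 2) * (r * S k (δ T)) :=
              mul_le_mul_of_nonneg_left hcon hp.le
          _ = r * ((2 * δ T) ^ (k ^ 2) * S k (δ T)) := by ring
          _ ≤ r * (a k + e + 1) := mul_le_mul_of_nonneg_left h8 hr0.le
          _ = e / 2 := by rw [hr]; field_simp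
      have h10 := abs_sub_le ((2 * δ T) ^ (k ^ 2) * W k (δ T) (H T) t) ((2 * δ T) ^ (k ^ 2) * S k (δ T)) (a k)
      linarith
    have h7 : volume.real {t ∈ Set.Icc 0 T | e < |(2 * δ T) ^ (k ^ 2) * W k (δ T) (H T) t - a k|} ≤
        T * L ^ (k ^ 4 + 3) * (1 / H T + H T * T ^ (-(δ T / (4 * k * (2 * k + 3))))) := by
      refine (measureReal_mono hsub ?_).trans h6
      refine ne_top_of_le_ne_top ?_ (measure_mono (Set.sep_subset _ _))
      rw [Real.volume_Icc]; exact ENNReal.ofReal_ne_top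
    have h8 : 1 / H T ≤ 1 / L ^ (k ^ 4 + 4 + A) := one_div_le_one_div_of_le (by positivity) h4a
    have h9 : H T * T ^ (-(δ T / (4 * k * (2 * k + 3)))) ≤ 1 / L ^ (k ^ 4 + 4 + A) := by
      have hx : 0 < T ^ (δ T / (4 * k * (2 * k + 3))) := by positivity
      rw [Real.rpow_neg hT0.le, le_div_iff₀ (by positivity), mul_assoc, mul_comm (T ^ _)⁻¹, ← mul_assoc,
        ← div_eq_mul_inv, div_le_one hx]
      exact h4b
    calc L ^ A / T * volume.real {t ∈ Set.Icc 0 T | e < |(2 * δ T) ^ (k ^ 2) * W k (δ T) (H T) t - a k|} ≤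
        L ^ A / T * (T * L ^ (k ^ 4 + 3) * (1 / L ^ (k ^ 4 + 4 + A) + 1 / L ^ (k ^ 4 + 4 + A))) := by
          refine mul_le_mul_of_nonneg_left (h7.trans ?_) (by positivity)
          exact mul_le_mul_of_nonneg_left (add_le_add h8 h9) (by positivity)
      _ = 2 * (1 / L) := by
          have q1 : L ^ (k ^ 4 + 4 + A) = L ^ (k ^ 4 + 3) * L ^ A * L := by
            rw [← pow_add, ← pow_succ]
            congr 1
            ring
          rw [q1]
          have q2 : 0 < L ^ (k ^ 4 + 3) := by positivity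
          have q3 : 0 < L ^ A := by positivity
          generalize L ^ (k ^ 4 + 3) = P at q2 ⊢
          generalize L ^ A = Q at q3 ⊢
          field_simp
          ring

end Pool.Agent.Results.MP_112ba8_nt.TypicalShortIntervals
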